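import Pool.Agent.R957.Self.Main

/-!
# The limit probabilities need not be monotone in the initial condition

Definitions: `Pool.Agent.R957.Self.Defs`.
-/

open Set

namespace Pool.Agent.Results.MP_cbf971_pr.NotMonotone

open Pool.Agent.R957.Self

/-- There is a continuous `λ ≥ 0` with finitely many fixed points, exactly two of them stable,
`x₁ < x₂`, such that `p₂` is not monotone: `p₂ (1) = 0` while `p₂ (1/4) > 0` and `p₂ (3) > 0`. -/
theorem result : ∃ (lam : ℝ → ℝ) (x₁ x₂ : ℝ), Continuous lam ∧ (∀ x, 0 ≤ lam x) ∧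
    {x | 0 ≤ x ∧ lam x = x}.Finite ∧ x₁ < x₂ ∧ {x | 0 ≤ x ∧ StableFixed lam x} = {x₁, x₂} ∧
    (0 < limProb lam x₂ (1 / 4) ∧ limProb lam x₂ 1 = 0 ∧ 0 < limProb lam x₂ 3) ∧
    ¬ MonotoneOn (limProb lam x₂) (Ici 0) ∧ ¬ AntitoneOn (limProb lam x₂) (Ici 0) := by
  obtain ⟨L, hL, h1, h3⟩ := exists_L
  have h2 := limProb_one hL
  refine ⟨lam L, 1 / 4, L, lam_cont L, lam_nonneg (by linarith), ?_, by linarith, ?_,
    ⟨h1, h2, h3⟩, ?_, ?_⟩
  · refine Set.Finite.subset (s := {1 / 4, 8 * L / (8 * L - 1), L}) (by simp) ?_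
    rintro x ⟨hx, h⟩
    simpa using (fixed_iff hL hx).1 h
  · ext x
    constructor
    · rintro ⟨hx, h⟩
      simpa using (stable_iff hL hx).1 h
    · intro h
      have hx : 0 ≤ x := by
        rcases h with h | h
        · rw [h]; norm_num
        · rw [Set.mem_singleton_iff.1 h]; linarith
      exact ⟨hx, (stable_iff hL hx).2 (by simpa using h)⟩
  · intro h
    have := h (show (1 / 4 : ℝ) ∈ Ici 0 by norm_num) (show (1 : ℝ) ∈ Ici 0 by norm_num)
      (by norm_num : (1 / 4 : ℝ) ≤ 1)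
    rw [h2] at this
    exact absurd this (not_le.2 h1)
  · intro h
    have := h (show (1 : ℝ) ∈ Ici 0 by norm_num) (show (3 : ℝ) ∈ Ici 0 by norm_num)
      (by norm_num : (1 : ℝ) ≤ 3)
    rw [h2] at this
    exact absurd this (not_le.2 h3)

end Pool.Agent.Results.MP_cbf971_pr.NotMonotone
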